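import Pool.Agent.Lib.MP_571595_lc.MORT.Base

/-! # Module LEVEL (MP_571595_lc): the level matching lemma; helper65. -/

set_option autoImplicit false

namespace Pool.Agent.Lib.MP_571595_lc.MORT.H65

lemma noM {M t d : ℤ} (h : M * t = d) (h1 : -M < d) (h2 : d < M) (h3 : d ≠ 0) : False := by
  have hM : 0 < M := by omega
  rcases lt_trichotomy t 0 with ht | ht | ht
  · nlinarith
  · rw [ht, mul_zero] at h; exact h3 h.symm
  · nlinarith

section
variable {J : Type} [Fintype J]

lemma ell_add (z w : J → ℤ) (i : J) : ell (z + w) i = ell z i + ell w i := by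
  simp only [ell, Pi.add_apply, Finset.sum_add_distrib]
  ring

lemma ell_inj (z w : J → ℤ) (h : ∀ i, ell z i = ell w i) : z = w := by
  have h1 : ∀ i, z i - w i + (∑ j, z j - ∑ j, w j) = 0 := by
    intro i
    have := h i
    simp only [ell] at this
    linarith
  have h2 : (∑ j, z j - ∑ j, w j) * (1 + Fintype.card J) = 0 := by
    have h3 : ∑ i : J, (z i - w i + (∑ j, z j - ∑ j, w j)) = 0 :=
      Finset.sum_eq_zero fun i _ => h1 i
    rw [Finset.sum_add_distrib, Finset.sum_sub_distrib, Finset.sum_const, Finset.card_univ,
      nsmul_eq_mul] at h3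
    linarith
  have h4 : (∑ j, z j - ∑ j, w j) = 0 := by
    rcases mul_eq_zero.1 h2 with h | h
    · exact h
    · have : (0 : ℤ) ≤ Fintype.card J := Int.natCast_nonneg _
      omega
  funext i
  have := h1 i
  rw [h4] at this
  linarith

lemma ell_nonneg (n : J → ℕ) (i : J) : 0 ≤ ell (toZ n) i := by
  have : 0 ≤ ∑ j, toZ n j := Finset.sum_nonneg fun j _ => Int.natCast_nonneg _
  have h2 : 0 ≤ toZ n i := Int.natCast_nonneg _
  simp only [ell]
  omega

lemma ell_zero (n : J → ℕ) (i : J) (h : ell (toZ n) i = 0) : n = 0 := by
  have h1 : ∀ j, 0 ≤ toZ n j := fun j => Int.natCast_nonneg _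
  have h2 : 0 ≤ ∑ j, toZ n j := Finset.sum_nonneg fun j _ => h1 j
  have h3 : ∑ j, toZ n j = 0 := by
    have := h1 i
    simp only [ell] at h
    omega
  funext j
  have h4 := (Finset.sum_eq_zero_iff_of_nonneg (fun j _ => h1 j)).1 h3 j (Finset.mem_univ j)
  have h5 : (n j : ℤ) = 0 := h4
  exact Int.natCast_eq_zero.1 h5

lemma ell_zero' (i : J) : ell (toZ (0 : J → ℕ)) i = 0 := by
  simp [ell, toZ]

/-- The arithmetic core. -/
theorem core [Nonempty J] (M es ep e1 e2 : ℤ) (h1 : es < ep) (h2 : ep < e1) (h3 : ep < e2)
    (h4 : e1 < es + M) (h5 : e2 < es + M) (h6 : e1 ≠ e2) (n m : J → ℕ) (O A : J → ℤ) (e e' : ℤ)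
    (he : e = es ∨ e = e1) (he' : e' = ep ∨ e' = e2)
    (hl : ∀ i, M * ell O i + min (-ep) (-e + M * ell (toZ n) i) =
      M * ell A i + min (-es) (-e' - M * ell (toZ m) i))
    (hr : ∀ i, -(M * ell O i) + min (-ep) (-e + -(M * ell (toZ n) i)) =
      -(M * ell A i) + min (-es) (-e' - -(M * ell (toZ m) i))) :
    e = es ∧ e' = ep ∧ A = O + toZ n ∧ n = m := by
  have hM : 0 < M := by omega
  obtain ⟨i0⟩ := ‹Nonempty J›
  have hn := ell_nonneg n
  have hm := ell_nonneg m
  have hMn : ∀ i, 0 ≤ M * ell (toZ n) i := fun i => mul_nonneg hM.le (hn i)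
  have hMm : ∀ i, 0 ≤ M * ell (toZ m) i := fun i => mul_nonneg hM.le (hm i)
  -- step 1
  have hes : e = es := by
    rcases he with he | he
    · exact he
    exfalso
    subst he
    have h := hr i0
    rw [min_eq_right (by have := hMn i0; omega)] at h
    rcases min_choice (-es) (-e' - -(M * ell (toZ m) i0)) with hc | hc
    · rw [hc] at h
      exact noM (M := M) (t := ell A i0 - ell O i0 - ell (toZ n) i0) (d := e - es)
        (by linarith) (by omega) (by omega) (by omega)
    · rw [hc] at h
      rcases he' with rfl | rfl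
      · exact noM (M := M) (t := ell A i0 - ell O i0 - ell (toZ n) i0 - ell (toZ m) i0)
          (d := e - e') (by linarith) (by omega) (by omega) (by omega)
      · exact noM (M := M) (t := ell A i0 - ell O i0 - ell (toZ n) i0 - ell (toZ m) i0)
          (d := e - e') (by linarith) (by omega) (by omega) (by omega)
  subst hes
  have hep : e' = ep := by
    rcases he' with he' | he'
    · exact he'
    exfalso
    subst he'
    have h := hl i0
    rw [min_eq_right (a := -e) (by have := hMm i0; omega)] at h
    rcases min_choice (-ep) (-e + M * ell (toZ n) i0) with hc | hc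
    · rw [hc] at h
      exact noM (M := M) (t := ell A i0 - ell O i0 - ell (toZ m) i0) (d := e' - ep)
        (by linarith) (by omega) (by omega) (by omega)
    · rw [hc] at h
      exact noM (M := M) (t := ell A i0 - ell O i0 - ell (toZ m) i0 - ell (toZ n) i0)
        (d := e' - e) (by linarith) (by omega) (by omega) (by omega)
  subst hep
  refine ⟨rfl, rfl, ?_⟩
  have hO : ∀ i, ell O i + ell (toZ m) i = ell A i := by
    intro i
    have h := hl i
    rw [min_eq_left (by have := hMn i; omega), min_eq_right (a := -e)
      (by have := hMm i; omega)] at h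
    have : M * (ell O i + ell (toZ m) i) = M * ell A i := by linarith
    exact mul_left_cancel₀ hM.ne' this
  have hOA : A = O + toZ m := by
    apply ell_inj
    intro i
    rw [ell_add, hO]
  have hA : A = O + toZ n := by
    by_cases hn0 : n = 0
    · by_cases hm0 : m = 0
      · rw [hn0, hOA, hm0]
      · exfalso
        have h := hr i0
        have h7 : 0 < ell (toZ m) i0 := lt_of_le_of_ne (hm i0) fun h => hm0 (ell_zero m i0 h.symm)
        have h8 : M ≤ M * ell (toZ m) i0 := by nlinarith
        rw [hn0, ell_zero', mul_zero, neg_zero, add_zero, min_eq_left (by omega),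
          min_eq_left (by omega)] at h
        exact noM (M := M) (t := ell A i0 - ell O i0) (d := e' - e)
          (by linarith) (by omega) (by omega) (by omega)
    · have h7 : ∀ i, M ≤ M * ell (toZ n) i := by
        intro i
        have h7 : 0 < ell (toZ n) i := lt_of_le_of_ne (hn i) fun h => hn0 (ell_zero n i h.symm)
        nlinarith
      by_cases hm0 : m = 0
      · exfalso
        have h := hr i0
        have h8 := h7 i0
        rw [hm0, ell_zero', mul_zero, neg_zero, sub_zero, min_eq_right (by omega),
          min_eq_right (by omega)] at h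
        exact noM (M := M) (t := ell A i0 - ell O i0 - ell (toZ n) i0) (d := e - e')
          (by linarith) (by omega) (by omega) (by omega)
      · apply ell_inj
        intro i
        have h := hr i
        have h8 := h7 i
        have h9 : 0 < ell (toZ m) i := lt_of_le_of_ne (hm i) fun h => hm0 (ell_zero m i h.symm)
        have h10 : M ≤ M * ell (toZ m) i := by nlinarith
        rw [min_eq_right (by omega), min_eq_left (by omega)] at h
        rw [ell_add]
        have : M * ell A i = M * (ell O i + ell (toZ n) i) := by linarith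
        exact mul_left_cancel₀ hM.ne' this
  refine ⟨hA, ?_⟩
  have h11 : toZ n = toZ m := by
    rw [hOA] at hA
    exact (add_left_cancel hA).symm
  funext i
  have := congrFun h11 i
  simp only [toZ] at this
  exact_mod_cast this

end

theorem level : LevelStatement := by
  intro J _ _ pr hpr M es ep e1 e2 h1 h2 h3 h4 h5 h6 rho hadd hinl hinr s p hs hp hvs hvp x x' hx hx'
    n m O A e e' he he' hvx hvx' heq
  have hM : 0 < M := by omega
  -- the valuation of both sides
  have hsum : ∀ (q : ℕ) (_ : q.Prime) (a b : ℚ), a ≠ 0 → b ≠ 0 →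
      padicValRat q a ≠ padicValRat q b → (-a + b ≠ 0) ∧
        padicValRat q (-a + b) = min (padicValRat q a) (padicValRat q b) := by
    intro q hq a b ha hb hab
    have := Fact.mk hq
    have h7 : -a + b ≠ 0 := by
      intro h
      apply hab
      have : b = a := by linarith
      rw [this]
    refine ⟨h7, ?_⟩
    rw [padicValRat.add_eq_min h7 (neg_ne_zero.2 ha) hb (by rwa [padicValRat.neg]),
      padicValRat.neg]
  have key : ∀ i : J ⊕ J, ∀ a b c d : ℤ, padicValRat (pr i) (rho (toZ n) : ℚ) = M * a →
      padicValRat (pr i) (rho (toZ m) : ℚ) = M * b → padicValRat (pr i) (rho O : ℚ) = c →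
      padicValRat (pr i) (rho A : ℚ) = d →
      c + min (-ep) (-e + M * a) = d + min (-es) (-e' - M * b) := by
    intro i a b c d ha hb hc hd
    have := Fact.mk (hpr i)
    have h8 : padicValRat (pr i) p ≠ padicValRat (pr i) x := by
      rw [hvp, hvx, ha]
      intro h
      rcases he with rfl | rfl
      · exact noM (M := M) (t := a) (d := e - ep) (by linarith) (by omega) (by omega) (by omega)
      · exact noM (M := M) (t := a) (d := e - ep) (by linarith) (by omega) (by omega) (by omega)
    have h9 : padicValRat (pr i) s ≠ padicValRat (pr i) x' := by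
      rw [hvs, hvx', hb]
      intro h
      rcases he' with rfl | rfl
      · exact noM (M := M) (t := b) (d := es - e') (by linarith) (by omega) (by omega) (by omega)
      · exact noM (M := M) (t := b) (d := es - e') (by linarith) (by omega) (by omega) (by omega)
    obtain ⟨h10, h11⟩ := hsum _ (hpr i) p x hp hx h8
    obtain ⟨h12, h13⟩ := hsum _ (hpr i) s x' hs hx' h9
    have h14 := congrArg (padicValRat (pr i)) heq
    rw [padicValRat.mul (Units.ne_zero _) h10, padicValRat.mul (Units.ne_zero _) h12, h11, h13,
      hvp, hvx, ha, hvs, hvx', hb, hc, hd] at h14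
    exact h14
  refine core M es ep e1 e2 h1 h2 h3 h4 h5 h6 n m O A e e' he he' ?_ ?_
  · intro i
    exact key (.inl i) _ _ _ _ (hinl _ i) (hinl _ i) (hinl _ i) (hinl _ i)
  · intro i
    have := key (.inr i) (-ell (toZ n) i) (-ell (toZ m) i) _ _ (by rw [hinr, mul_neg])
      (by rw [hinr, mul_neg]) (hinr _ i) (hinr _ i)
    rw [mul_neg, mul_neg] at this
    exact this

end Pool.Agent.Lib.MP_571595_lc.MORT.H65
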