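import Pool.Agent.Lib.MP_571595_lc.MORT.Base

/-! # Module RUN (MP_571595_lc): completeness; helper65. -/

set_option autoImplicit false

namespace Pool.Agent.Lib.MP_571595_lc.MORT.H65

section
variable {J Q R : Type} [Fintype J] [DecidableEq J] [Nonempty J] {C : CM J Q R} (D : Data C)

omit [Nonempty J] in
lemma exists_js (n : J → ℕ) : ∃ js : List J,
    (js.map (fun j => (Pi.single j (1 : ℤ) : J → ℤ))).sum = toZ n ∧ ∀ j ∈ js, n j ≠ 0 := by
  refine ⟨Finset.univ.toList.flatMap (fun j => List.replicate (n j) j), ?_, ?_⟩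
  · have h : ∀ ls : List J, ((ls.flatMap (fun j => List.replicate (n j) j)).map
        (fun j => (Pi.single j (1 : ℤ) : J → ℤ))).sum =
        (ls.map (fun j => n j • (Pi.single j (1 : ℤ) : J → ℤ))).sum := by
      intro ls
      induction ls with
      | nil => simp
      | cons j ls ih =>
        rw [List.flatMap_cons, List.map_append, List.sum_append, ih, List.map_cons, List.sum_cons,
          List.map_replicate, List.sum_replicate]
    rw [h, Finset.sum_map_toList]
    funext i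
    simp [Finset.sum_apply, Pi.single_apply, toZ]
  · intro j hj
    obtain ⟨i, _, hi⟩ := List.mem_flatMap.1 hj
    obtain ⟨h1, h2⟩ := List.mem_replicate.1 hi
    rw [h2]; exact h1

omit [DecidableEq J] [Nonempty J] in
lemma rho_zero : (D.rho 0 : ℚ) = 1 := by
  have h := D.rho_add 0 0
  rw [add_zero] at h
  have h2 : D.rho 0 = 1 := by
    exact (mul_eq_left.1 h.symm)
  rw [h2]; rfl

omit [DecidableEq J] [Nonempty J] in
lemma rho_add' (z w : J → ℤ) : (D.rho (z + w) : ℚ) = D.rho z * D.rho w := by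
  rw [D.rho_add]; rfl

omit [DecidableEq J] [Nonempty J] in
lemma rho_ne (z : J → ℤ) : (D.rho z : ℚ) ≠ 0 := Units.ne_zero _

lemma travel (hR : RecStatement) (c0 : J → ℕ) (l : Bool) (a : St Q R) (tv : J → Tr J Q R)
    (h1 : ∀ j, (tv j).trav = some j) (h2 : ∀ j, srcS C l (tv j) = a) (n : J → ℕ)
    (hok : ∀ j, n j ≠ 0 → (tv j).ok C) (w : List (Tr J Q R)) (hw : OkW C w) :
    ∃ u, OkW C u ∧ D.ze c0 l a u = (D.rho (toZ n) : ℚ) ^ epsS l * D.ze c0 l a w := by
  obtain ⟨js, hjs, hjs'⟩ := exists_js n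
  have key : ∀ js : List J, (∀ j ∈ js, (tv j).ok C) → OkW C (js.map tv ++ w) ∧
      D.ze c0 l a (js.map tv ++ w) =
        (D.rho ((js.map (fun j => (Pi.single j (1 : ℤ) : J → ℤ))).sum) : ℚ) ^ epsS l *
          D.ze c0 l a w := by
    intro js
    induction js with
    | nil =>
      intro _
      refine ⟨by simpa using hw, ?_⟩
      simp [rho_zero D]
    | cons j js ih =>
      intro hj
      obtain ⟨h3, h4⟩ := ih (fun i hi => hj i (List.mem_cons_of_mem _ hi))
      have h5 : OkW C (tv j :: (js.map tv ++ w)) := by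
        intro τ hτ
        rcases List.mem_cons.1 hτ with h | h
        · rw [h]; exact hj j List.mem_cons_self
        · exact h3 τ h
      refine ⟨by simpa using h5, ?_⟩
      have h6 := hR.trav C D c0 l (tv j) j (js.map tv ++ w) h5 (h1 j)
      rw [h2 j] at h6
      rw [List.map_cons, List.cons_append, h6, h4, List.map_cons, List.sum_cons, rho_add',
        mul_zpow, mul_assoc]
  refine ⟨js.map tv ++ w, (key js (fun j hj => hok j (hjs' j hj))).1, ?_⟩
  rw [(key js (fun j hj => hok j (hjs' j hj))).2, hjs]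

/-- The step from a level of type `L` to a level of type `U`. -/
lemma stepU (hR : RecStatement) (c0 : J → ℕ) (q : Q) (τ : Tr J Q R) (hτ : τ.trav = none)
    (hb : τ.b C = .U q) (ha : (τ.a C).asc = false) (hok : τ.ok C) (O B : J → ℤ) (n : J → ℕ)
    (hB : B + τ.z C = O + toZ n) (wL wR : List (Tr J Q R)) (hwL : OkW C wL) (hwR : OkW C wR)
    (h : D.HL c0 (τ.a C) O B wL wR) :
    ∃ wL' wR', OkW C wL' ∧ OkW C wR' ∧ D.HU c0 q O (O + toZ n) wL' wR' := by
  have hwL1 : OkW C (τ :: wL) := by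
    intro σ hσ
    rcases List.mem_cons.1 hσ with h | h
    · rw [h]; exact hok
    · exact hwL σ h
  have hwR1 : OkW C (.aG :: wR) := by
    intro σ hσ
    rcases List.mem_cons.1 hσ with h | h
    · rw [h]; trivial
    · exact hwR σ h
  obtain ⟨uL, huL, hzL⟩ := travel D hR c0 true (.U q) (fun j => .tU q j) (fun _ => rfl)
    (fun _ => rfl) n (fun _ _ => trivial) _ hwL1
  obtain ⟨uR, huR, hzR⟩ := travel D hR c0 false .AU (fun j => .aU j) (fun _ => rfl)
    (fun _ => rfl) n (fun _ _ => trivial) _ hwR1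
  refine ⟨uL, uR, huL, huR, ?_⟩
  have gL := hR.gate C D c0 true τ wL hwL1 hτ
  have gR := hR.gate C D c0 false .aG wR hwR1 rfl
  have e1 : srcS C true τ = .U q := hb
  have e2 : tgtS C true τ = τ.a C := rfl
  have e3 : sgnS C true τ = -1 := by simp [sgnS, ha]
  have e4 : srcS C false (.aG : Tr J Q R) = .AU := rfl
  have e5 : tgtS C false (.aG : Tr J Q R) = .AL := rfl
  have e6 : sgnS C false (.aG : Tr J Q R) = -1 := by simp [sgnS, Tr.a, St.asc]
  have e7 : (Tr.aG : Tr J Q R).z C = 0 := rfl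
  rw [e1, e2, e3] at gL
  rw [e4, e5, e6, e7, rho_zero] at gR
  rw [gL] at hzL
  rw [gR] at hzR
  simp only [epsS, zpow_one, zpow_neg] at hzL hzR
  have o1 : D.out true (St.U q : St Q R).ty = D.s := rfl
  have o2 : D.out false (St.AU : St Q R).ty = D.p := rfl
  rw [o1] at hzL
  rw [o2] at hzR
  unfold Data.HU
  rw [hzL, hzR]
  unfold Data.HL at h
  have h' := congrArg (fun x => x⁻¹) h
  simp only [mul_inv, inv_inv] at h'
  have hBr : (D.rho B : ℚ) * D.rho (τ.z C) = D.rho O * D.rho (toZ n) := by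
    rw [← rho_add', ← rho_add', hB]
  rw [rho_add']
  have hz0 := rho_ne D (τ.z C)
  have hn0 := rho_ne D (toZ n)
  generalize (D.rho (τ.z C) : ℚ) = rz at *
  generalize (D.rho (toZ n) : ℚ) = rn at *
  generalize (D.rho O : ℚ) = rO at *
  generalize (D.rho B : ℚ) = rB at *
  have h3 : rO * rn * rz⁻¹ = rB := by rw [← hBr]; field_simp
  have h4 : rO * rn * (rz * (-1 * D.s + D.ze c0 true (τ.a C) wL))⁻¹ =
      rO * (1 * (-1 * D.p + D.ze c0 false .AL wR))⁻¹ := by
    rw [mul_inv, ← mul_assoc, h3, one_mul]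
    have : -1 * D.s = -D.s := by ring
    rw [this]
    have : -1 * D.p = -D.p := by ring
    rw [this]
    exact h'
  have h5 : rn * rn⁻¹ = 1 := mul_inv_cancel₀ hn0
  generalize (rz * (-1 * D.s + D.ze c0 true (τ.a C) wL))⁻¹ = X at *
  generalize (1 * (-1 * D.p + D.ze c0 false .AL wR))⁻¹ = Y at *
  linear_combination h4 + rO * (D.p - Y) * (h5)

/-- The step from a level of type `U` to a level of type `L`. -/
lemma stepL (hR : RecStatement) (c0 : J → ℕ) (r : R) (O : J → ℤ) (n : J → ℕ)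
    (hn : ∀ j, C.zt r j → n j = 0) (wL wR : List (Tr J Q R)) (hwL : OkW C wL) (hwR : OkW C wR)
    (h : D.HU c0 (C.src r) O (O + toZ n) wL wR) :
    ∃ wL' wR', OkW C wL' ∧ OkW C wR' ∧ D.HL c0 (.L r) O (O + toZ n) wL' wR' := by
  have hwL1 : OkW C (.gU r :: wL) := by
    intro σ hσ
    rcases List.mem_cons.1 hσ with h | h
    · rw [h]; trivial
    · exact hwL σ h
  have hwR1 : OkW C (.aH :: wR) := by
    intro σ hσ
    rcases List.mem_cons.1 hσ with h | h
    · rw [h]; trivial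
    · exact hwR σ h
  obtain ⟨uL, huL, hzL⟩ := travel D hR c0 true (.L r) (fun j => .tL r j) (fun _ => rfl)
    (fun _ => rfl) n (fun j hj hz => hj (hn j hz)) _ hwL1
  obtain ⟨uR, huR, hzR⟩ := travel D hR c0 false .AL (fun j => .aL j) (fun _ => rfl)
    (fun _ => rfl) n (fun _ _ => trivial) _ hwR1
  refine ⟨uL, uR, huL, huR, ?_⟩
  have gL := hR.gate C D c0 true (.gU r) wL hwL1 rfl
  have gR := hR.gate C D c0 false .aH wR hwR1 rfl
  have e1 : srcS C true (.gU r : Tr J Q R) = .L r := rfl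
  have e2 : tgtS C true (.gU r : Tr J Q R) = .U (C.src r) := rfl
  have e3 : sgnS C true (.gU r : Tr J Q R) = -1 := by simp [sgnS, Tr.a, St.asc]
  have e4 : srcS C false (.aH : Tr J Q R) = .AL := rfl
  have e5 : tgtS C false (.aH : Tr J Q R) = .AU := rfl
  have e6 : sgnS C false (.aH : Tr J Q R) = -1 := by simp [sgnS, Tr.a, St.asc]
  have e7 : (Tr.aH : Tr J Q R).z C = 0 := rfl
  have e8 : (Tr.gU r : Tr J Q R).z C = 0 := rfl
  rw [e1, e2, e3, e8, rho_zero] at gL
  rw [e4, e5, e6, e7, rho_zero] at gR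
  rw [gL] at hzL
  rw [gR] at hzR
  simp only [epsS, zpow_one, zpow_neg] at hzL hzR
  have o1 : D.out true (St.L r : St Q R).ty = D.p := rfl
  have o2 : D.out false (St.AL : St Q R).ty = D.s := rfl
  rw [o1] at hzL
  rw [o2] at hzR
  unfold Data.HL
  rw [hzL, hzR]
  unfold Data.HU at h
  have h' := congrArg (fun x => x⁻¹) h
  simp only [mul_inv] at h'
  rw [rho_add'] at h' ⊢
  have hn0 := rho_ne D (toZ n)
  have hO0 := rho_ne D O
  generalize (D.rho (toZ n) : ℚ) = rn at *
  generalize (D.rho O : ℚ) = rO at *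
  have h4 : rO⁻¹ * (1 * (-1 * D.p + D.ze c0 true (.U (C.src r)) wL))⁻¹ =
      rO⁻¹ * rn⁻¹ * (1 * (-1 * D.s + D.ze c0 false .AU wR))⁻¹ := by
    rw [one_mul, one_mul]
    have : -1 * D.s = -D.s := by ring
    rw [this]
    have : -1 * D.p = -D.p := by ring
    rw [this, ← mul_inv rO rn]
    rw [mul_inv rO rn]
    rw [mul_inv rO rn] at h'
    exact h'
  have h5 : rn * rn⁻¹ = 1 := mul_inv_cancel₀ hn0
  rw [mul_inv rO rn]
  generalize (1 * (-1 * D.p + D.ze c0 true (.U (C.src r)) wL))⁻¹ = X at *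
  generalize (1 * (-1 * D.s + D.ze c0 false .AU wR))⁻¹ = Y at *
  linear_combination h4 + rO⁻¹ * (X - D.p) * h5

/-- The start. -/
lemma start (hR : RecStatement) (c0 : J → ℕ) :
    ∃ wL wR, OkW C wL ∧ OkW C wR ∧ D.HL c0 .q0 0 (toZ c0) wL wR := by
  obtain ⟨uR, huR, hzR⟩ := travel D hR c0 false .AL (fun j => .aL j) (fun _ => rfl)
    (fun _ => rfl) c0 (fun _ _ => trivial) [] (fun _ h => absurd h List.not_mem_nil)
  refine ⟨[], uR, (fun _ h => absurd h List.not_mem_nil), huR, ?_⟩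
  have h1 := hR.nil C D c0 true
  have h2 := hR.nil C D c0 false
  have e1 : (aeS true : St Q R) = .q0 := rfl
  have e2 : (aeS false : St Q R) = .AL := rfl
  rw [e1] at h1
  rw [e2] at h2
  unfold Data.HL
  rw [hzR, h1, h2, rho_zero]
  simp only [epsS, zpow_neg, zpow_one, Data.ec]
  have hn0 := rho_ne D (toZ c0)
  have h5 : (D.rho (toZ c0) : ℚ) * (D.rho (toZ c0) : ℚ)⁻¹ = 1 := mul_inv_cancel₀ hn0
  generalize (D.rho (toZ c0) : ℚ) = rn at *
  linear_combination (-D.p) * h5

end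

theorem run (_h1 : NormStatement) (hR : RecStatement) : RunStatement := by
  intro J Q R _ _ _ C D c0 q n hreach
  have key : ∀ x : Q × (J → ℕ), C.Reach (C.qin, c0) x →
      ∃ wL wR : List (Tr J Q R), OkW C wL ∧ OkW C wR ∧ D.HU c0 x.1 0 (toZ x.2) wL wR := by
    intro x hx
    induction hx with
    | refl =>
      obtain ⟨wL, wR, hL, hR', h⟩ := start D hR c0
      obtain ⟨uL, uR, h1, h2, h3⟩ := stepU D hR c0 C.qin .g0 rfl rfl rfl trivial 0 (toZ c0) c0
        (by rw [zero_add]; exact add_zero _) wL wR hL hR' h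
      rw [zero_add] at h3
      exact ⟨uL, uR, h1, h2, h3⟩
    | @tail y z _ hstep ih =>
      obtain ⟨wL, wR, hL, hR', h⟩ := ih
      obtain ⟨r, hr1, hr2, hr3, hr4⟩ := hstep
      rw [← hr1] at h
      have h0 : toZ y.2 = 0 + toZ y.2 := (zero_add _).symm
      rw [h0] at h
      obtain ⟨vL, vR, h1, h2, h3⟩ := stepL D hR c0 r 0 y.2 hr3 wL wR hL hR' h
      rw [← h0] at h3
      obtain ⟨uL, uR, h4, h5, h6⟩ := stepU D hR c0 (C.dst r) (.gL r) rfl rfl rfl trivial 0 (toZ y.2)
        z.2 (by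
          rw [zero_add]
          funext j
          exact (hr4 j).symm) vL vR h1 h2 h3
      rw [zero_add, hr2] at h6
      exact ⟨uL, uR, h4, h5, h6⟩
  exact key (q, n) hreach

end Pool.Agent.Lib.MP_571595_lc.MORT.H65
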